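import Pool.Agent.Q64.ZO.All

/-!
# MP_55f1f5_an, Q1 (partial): the zero-one law for `C = X`, and a covering criterion for all `C`

(1) For every real Banach space `X` the set `F(X)` of the nonexpansive maps `X → X` which have a
nonempty closed convex bounded invariant set is meager or contains a dense open set.
(2) Let `C` be a closed convex subset of a Banach space. If for some `q ∈ C` and `R > 0` the set
`C ∩ closedBall q R` is covered by finitely many closed balls of a radius `< R` with centres in `C`,
then `F(C)` contains a dense open set.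

Idea of (1): a small copy of an open subset of `F(X)` (maps `h` whose rescalings
`y ↦ (h(p + t y) - p) / t` belong to it) can be glued near a fixed point `p` into any nonexpansive
map. Gluing uses the radial soft threshold `x ↦ p + (1 - σ/‖x-p‖)⁺ (x-p)`, which is nonexpansive in
every normed space.
-/

open Filter Topology Set Metric
open scoped NNReal

namespace Pool.Agent.Results.MP_55f1f5_an.WholeSpaceZeroOneLaw

universe u

/-- `𝒩(C)`: the nonexpansive self-maps of `C`, with the topology of pointwise convergence (the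
subspace topology of the product topology on `C → C`) -/
abbrev NE {X : Type u} [NormedAddCommGroup X] (C : Set X) := {f : C → C // LipschitzWith 1 f}

/-- `ℱ(C)`: the maps `f` for which there is a nonempty, closed, convex, bounded `K ⊆ C` with
`f(K) ⊆ K` -/
def FF {X : Type u} [NormedAddCommGroup X] [NormedSpace ℝ X] (C : Set X) : Set (NE C) :=
  {f | ∃ K : Set X, K.Nonempty ∧ K ⊆ C ∧ IsClosed K ∧ Convex ℝ K ∧ Bornology.IsBounded K ∧
    ∀ x : C, (x : X) ∈ K → (f.1 x : X) ∈ K}

theorem result (X : Type u) [NormedAddCommGroup X] [NormedSpace ℝ X] [CompleteSpace X] :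
    (IsMeagre (FF (univ : Set X)) ∨
      ∃ O : Set (NE (univ : Set X)), IsOpen O ∧ Dense O ∧ O ⊆ FF (univ : Set X)) ∧
    ∀ C : Set X, IsClosed C → Convex ℝ C →
      (∃ q ∈ C, ∃ R d : ℝ, 0 < R ∧ 0 < d ∧ ∃ Z : Set X, Z.Finite ∧ Z ⊆ C ∧
        ∀ x ∈ C, ‖x - q‖ ≤ R → ∃ z ∈ Z, ‖x - z‖ ≤ R - d) →
      ∃ O : Set (NE C), IsOpen O ∧ Dense O ∧ O ⊆ FF C :=
  ⟨Pool.Agent.Q64.ZO.all_B X, fun C hC hK h => Pool.Agent.Q64.ZO.all_A X C hC hK h⟩

end Pool.Agent.Results.MP_55f1f5_an.WholeSpaceZeroOneLaw
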